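import Pool.Agent.N356.SP.DefsK

/-!
# The polynomial bound (GK18 of project LK, helper356)

By helper667.  The difference of the two sides, divided by the square of `ξ`, is at least a polynomial with nonnegative
Bernstein coefficients.
-/

set_option autoImplicit false

namespace Pool.Agent.N667.LK

open Pool.Agent.N356.SP

/-- the polynomial of the end of the proof is nonnegative (Bernstein coefficients) -/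
theorem qpos {κ ξ : ℝ} (hκ0 : 0 ≤ κ) (hκ1 : κ ≤ 1 / 6) (hξ0 : 0 ≤ ξ) (hξ1 : ξ ≤ 13 / 10) :
    0 ≤ 1 / 2 - κ - 11 / 20 * κ ^ 2 * ξ - 3 / 10 * κ ^ 2 * ξ ^ 2 +
      ξ / 6 * (1 - 9 / 10 * κ ^ 2 * ξ ^ 2) + ξ ^ 2 / 24 * (1 - 6 / 5 * κ ^ 2 * ξ ^ 2) +
      ξ ^ 3 / 120 * (1 - 3 / 2 * κ ^ 2 * ξ ^ 2) -
      (49 / 100 - 12825 / 10000 * κ + 13571 / 10000 * κ ^ 2) *
        (1 + 2 * κ * ξ + 81 / 50 * κ ^ 2 * ξ ^ 2) -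
      (117462 / 1000000 - 68687 / 100000 * κ + 1284 / 1000 * κ ^ 2) * ξ *
        (1 + 3 * κ * ξ + 22 / 5 * κ ^ 2 * ξ ^ 2) -
      201 / 20000 * (1 - 5822 / 1000 * κ + 10167 / 1000 * κ ^ 2) * ξ ^ 2 *
        (1 + 4 * κ * ξ + 9 * κ ^ 2 * ξ ^ 2) -
      1 / 2000 * (1 - 5822 / 1000 * κ + 10167 / 1000 * κ ^ 2) * ξ ^ 3 *
        (1 + 5 * κ * ξ + 31 / 2 * κ ^ 2 * ξ ^ 2) := by
  obtain ⟨a, rfl⟩ : ∃ a : ℝ, κ = a / 6 := ⟨6 * κ, by ring⟩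
  obtain ⟨b, rfl⟩ : ∃ b : ℝ, ξ = 13 * b / 10 := ⟨10 * ξ / 13, by ring⟩
  have ha : 0 ≤ a := by linarith
  have hb : 0 ≤ b := by linarith
  obtain ⟨a', ha'⟩ : ∃ a' : ℝ, a' = 1 - a := ⟨_, rfl⟩
  obtain ⟨b', hb'⟩ : ∃ b' : ℝ, b' = 1 - b := ⟨_, rfl⟩
  have ha0 : 0 ≤ a' := by linarith
  have hb0 : 0 ≤ b' := by linarith
  have key : 0 ≤ (1:ℝ)/100 * a' ^ 4 * b' ^ 5 +
    (1709491:ℝ)/15000000 * a' ^ 4 * b * b' ^ 4 +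
    (12278893:ℝ)/30000000 * a' ^ 4 * b ^ 2 * b' ^ 3 +
    (9919541:ℝ)/15000000 * a' ^ 4 * b ^ 3 * b' ^ 2 +
    (15017413:ℝ)/30000000 * a' ^ 4 * b ^ 4 * b' +
    (2169121:ℝ)/15000000 * a' ^ 4 * b ^ 5 +
    (209:ℝ)/2400 * a * a' ^ 3 * b' ^ 5 +
    (18833083:ℝ)/30000000 * a * a' ^ 3 * b * b' ^ 4 +
    (10627189819:ℝ)/6000000000 * a * a' ^ 3 * b ^ 2 * b' ^ 3 +
    (3709495481:ℝ)/1500000000 * a * a' ^ 3 * b ^ 3 * b' ^ 2 +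
    (10241220541:ℝ)/6000000000 * a * a' ^ 3 * b ^ 4 * b' +
    (232192653:ℝ)/500000000 * a * a' ^ 3 * b ^ 5 +
    (58879:ℝ)/360000 * a ^ 2 * a' ^ 2 * b' ^ 5 +
    (93368071:ℝ)/90000000 * a ^ 2 * a' ^ 2 * b * b' ^ 4 +
    (21016181029:ℝ)/8000000000 * a ^ 2 * a' ^ 2 * b ^ 2 * b' ^ 3 +
    (299486905333:ℝ)/90000000000 * a ^ 2 * a' ^ 2 * b ^ 3 * b' ^ 2 +
    (376662003827:ℝ)/180000000000 * a ^ 2 * a' ^ 2 * b ^ 4 * b' +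
    (30959896717:ℝ)/60000000000 * a ^ 2 * a' ^ 2 * b ^ 5 +
    (9527:ℝ)/90000 * a ^ 3 * a' * b' ^ 5 +
    (85193981:ℝ)/135000000 * a ^ 3 * a' * b * b' ^ 4 +
    (161828451007:ℝ)/108000000000 * a ^ 3 * a' * b ^ 2 * b' ^ 3 +
    (1909879182413:ℝ)/1080000000000 * a ^ 3 * a' * b ^ 3 * b' ^ 2 +
    (2753048760773:ℝ)/2700000000000 * a ^ 3 * a' * b ^ 4 * b' +
    (9548936812261:ℝ)/43200000000000 * a ^ 3 * a' * b ^ 5 +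
    (6979:ℝ)/360000 * a ^ 4 * b' ^ 5 +
    (14505329:ℝ)/135000000 * a ^ 4 * b * b' ^ 4 +
    (9954314677:ℝ)/43200000000 * a ^ 4 * b ^ 2 * b' ^ 3 +
    (253033965787:ℝ)/1080000000000 * a ^ 4 * b ^ 3 * b' ^ 2 +
    (596671738061:ℝ)/5760000000000 * a ^ 4 * b ^ 4 * b' +
    (69967765723:ℝ)/6912000000000 * a ^ 4 * b ^ 5 := by
    positivity
  refine key.trans (le_of_eq ?_)
  subst ha' hb'
  ring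

/-- upper bounds of powers of `1 + u / 2` -/
theorem w4 {u : ℝ} (h0 : 0 ≤ u) (h1 : u ≤ 13 / 60) : (1 + u / 2) ^ 4 ≤ 1 + 2 * u + 81 / 50 * u ^ 2 := by
  have h : 1 + 2 * u + 81 / 50 * u ^ 2 - (1 + u / 2) ^ 4 = u ^ 2 * (3 / 25 - (u / 2 + u ^ 2 / 16)) := by ring
  have h2 : u ^ 2 ≤ (13 / 60) ^ 2 := pow_le_pow_left₀ h0 h1 2
  have h3 : 0 ≤ u ^ 2 * (3 / 25 - (u / 2 + u ^ 2 / 16)) := mul_nonneg (sq_nonneg _) (by norm_num at h2; linarith)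
  linarith

theorem w6 {u : ℝ} (h0 : 0 ≤ u) (h1 : u ≤ 13 / 60) : (1 + u / 2) ^ 6 ≤ 1 + 3 * u + 22 / 5 * u ^ 2 := by
  have h : 1 + 3 * u + 22 / 5 * u ^ 2 - (1 + u / 2) ^ 6 =
      u ^ 2 * (13 / 20 - (5 / 2 * u + 15 / 16 * u ^ 2 + 3 / 16 * u ^ 3 + u ^ 4 / 64)) := by ring
  have h2 : u ^ 2 ≤ (13 / 60) ^ 2 := pow_le_pow_left₀ h0 h1 2
  have h3 : u ^ 3 ≤ (13 / 60) ^ 3 := pow_le_pow_left₀ h0 h1 3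
  have h4 : u ^ 4 ≤ (13 / 60) ^ 4 := pow_le_pow_left₀ h0 h1 4
  have h5 : 0 ≤ u ^ 2 * (13 / 20 - (5 / 2 * u + 15 / 16 * u ^ 2 + 3 / 16 * u ^ 3 + u ^ 4 / 64)) :=
    mul_nonneg (sq_nonneg _) (by norm_num at h2 h3 h4; linarith)
  linarith

theorem w8 {u : ℝ} (h0 : 0 ≤ u) (h1 : u ≤ 13 / 60) : (1 + u / 2) ^ 8 ≤ 1 + 4 * u + 9 * u ^ 2 := by
  have h : 1 + 4 * u + 9 * u ^ 2 - (1 + u / 2) ^ 8 =
      u ^ 2 * (2 - (7 * u + 35 / 8 * u ^ 2 + 7 / 4 * u ^ 3 + 7 / 16 * u ^ 4 + u ^ 5 / 16 + u ^ 6 / 256)) := by ring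
  have h2 : u ^ 2 ≤ (13 / 60) ^ 2 := pow_le_pow_left₀ h0 h1 2
  have h3 : u ^ 3 ≤ (13 / 60) ^ 3 := pow_le_pow_left₀ h0 h1 3
  have h4 : u ^ 4 ≤ (13 / 60) ^ 4 := pow_le_pow_left₀ h0 h1 4
  have h5 : u ^ 5 ≤ (13 / 60) ^ 5 := pow_le_pow_left₀ h0 h1 5
  have h6 : u ^ 6 ≤ (13 / 60) ^ 6 := pow_le_pow_left₀ h0 h1 6
  have h7 : 0 ≤ u ^ 2 * (2 - (7 * u + 35 / 8 * u ^ 2 + 7 / 4 * u ^ 3 + 7 / 16 * u ^ 4 + u ^ 5 / 16 +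
      u ^ 6 / 256)) := mul_nonneg (sq_nonneg _) (by norm_num at h2 h3 h4 h5 h6; linarith)
  linarith

theorem w10 {u : ℝ} (h0 : 0 ≤ u) (h1 : u ≤ 13 / 60) : (1 + u / 2) ^ 10 ≤ 1 + 5 * u + 31 / 2 * u ^ 2 := by
  have h : 1 + 5 * u + 31 / 2 * u ^ 2 - (1 + u / 2) ^ 10 =
      u ^ 2 * (17 / 4 - (15 * u + 105 / 8 * u ^ 2 + 63 / 8 * u ^ 3 + 105 / 32 * u ^ 4 + 15 / 16 * u ^ 5 +
        45 / 256 * u ^ 6 + 5 / 256 * u ^ 7 + u ^ 8 / 1024)) := by ring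
  have h2 : u ^ 2 ≤ (13 / 60) ^ 2 := pow_le_pow_left₀ h0 h1 2
  have h3 : u ^ 3 ≤ (13 / 60) ^ 3 := pow_le_pow_left₀ h0 h1 3
  have h4 : u ^ 4 ≤ (13 / 60) ^ 4 := pow_le_pow_left₀ h0 h1 4
  have h5 : u ^ 5 ≤ (13 / 60) ^ 5 := pow_le_pow_left₀ h0 h1 5
  have h6 : u ^ 6 ≤ (13 / 60) ^ 6 := pow_le_pow_left₀ h0 h1 6
  have h7 : u ^ 7 ≤ (13 / 60) ^ 7 := pow_le_pow_left₀ h0 h1 7
  have h8 : u ^ 8 ≤ (13 / 60) ^ 8 := pow_le_pow_left₀ h0 h1 8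
  have h9 : 0 ≤ u ^ 2 * (17 / 4 - (15 * u + 105 / 8 * u ^ 2 + 63 / 8 * u ^ 3 + 105 / 32 * u ^ 4 +
      15 / 16 * u ^ 5 + 45 / 256 * u ^ 6 + 5 / 256 * u ^ 7 + u ^ 8 / 1024)) :=
    mul_nonneg (sq_nonneg _) (by norm_num at h2 h3 h4 h5 h6 h7 h8; linarith)
  linarith

/-- upper bounds of the coefficients -/
theorem a2 {κ : ℝ} (h0 : 0 ≤ κ) (h1 : κ ≤ 1 / 6) :
    9 / 100 + 1 / 6 * (1 - κ) ^ 2 * (2 - 7 * κ / 4) +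
      1 / 120 * (1 - κ) ^ 2 * (1 - 7 * κ / 4) * (4 - 7 * κ / 2) * (2 - 7 * κ / 8) ≤
      49 / 100 - 12825 / 10000 * κ + 13571 / 10000 * κ ^ 2 := by
  have e1 : 0 ≤ κ * (κ - 1 / 8) ^ 2 := by positivity
  have e2 : 0 ≤ κ ^ 3 * (1 / 6 - κ) := mul_nonneg (by positivity) (by linarith)
  have e3 : 0 ≤ κ ^ 5 := by positivity
  have e4 : 0 ≤ κ * (1 / 6 - κ) := mul_nonneg h0 (by linarith)
  have e5 : 0 ≤ κ ^ 2 := by positivity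
  nlinarith [e1, e2, e3, e4, e5, h0]

theorem a3 {κ : ℝ} (h0 : 0 ≤ κ) (h1 : κ ≤ 1 / 6) :
    1 / 90 * (1 - κ) ^ 2 * (1 - 2 * κ) ^ 2 * (2 - 7 * κ / 4) ^ 2 +
      1 / 120 * (1 - κ) ^ 2 * (1 - 7 * κ / 4) * (4 - 7 * κ / 2) * (2 - 7 * κ / 8) +
      127 / 20000 * (1 - κ) ^ 2 * (1 - 2 * κ) ^ 2 ≤
      117462 / 1000000 - 68687 / 100000 * κ + 1284 / 1000 * κ ^ 2 := by
  have e1 : 0 ≤ κ * (κ - 1 / 8) ^ 2 := by positivity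
  have e2 : 0 ≤ κ ^ 3 * (1 / 6 - κ) := mul_nonneg (by positivity) (by linarith)
  have e3 : 0 ≤ κ ^ 5 * (1 / 6 - κ) := mul_nonneg (by positivity) (by linarith)
  have e4 : 0 ≤ κ * (1 / 6 - κ) := mul_nonneg h0 (by linarith)
  have e5 : 0 ≤ κ ^ 2 := by positivity
  have e6 : 0 ≤ κ ^ 5 := by positivity
  nlinarith [e1, e2, e3, e4, e5, e6, h0]

theorem cc {κ : ℝ} (h0 : 0 ≤ κ) (h1 : κ ≤ 1 / 6) :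
    (1 - κ) ^ 2 * (1 - 2 * κ) ^ 2 ≤ 1 - 5822 / 1000 * κ + 10167 / 1000 * κ ^ 2 := by
  have e1 : 0 ≤ κ * (κ - 1 / 8) ^ 2 := by positivity
  have e2 : 0 ≤ κ ^ 3 * (1 / 6 - κ) := mul_nonneg (by positivity) (by linarith)
  have e4 : 0 ≤ κ * (1 / 6 - κ) := mul_nonneg h0 (by linarith)
  have e5 : 0 ≤ κ ^ 2 := by positivity
  nlinarith [e1, e2, e4, e5, h0]

/-- GK18: the polynomial bound -/
theorem E2 {κ ξ : ℝ} (hκ0 : 0 ≤ κ) (hκ1 : κ ≤ 1 / 6) (hξ0 : 0 ≤ ξ) (hξ1 : ξ ≤ 13 / 10) :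
    Nb κ (ξ * (1 + κ * ξ / 2) ^ 2) ≤ Real.exp (ξ - 3 / 10 * κ ^ 2 * ξ ^ 3) := by
  obtain ⟨u, hu⟩ : ∃ u, u = κ * ξ := ⟨_, rfl⟩
  have hu0 : 0 ≤ u := by rw [hu]; positivity
  have hu1 : u ≤ 13 / 60 := by
    rw [hu]
    calc κ * ξ ≤ 1 / 6 * (13 / 10) := mul_le_mul hκ1 hξ1 hξ0 (by norm_num)
      _ = 13 / 60 := by norm_num
  have hv : ξ - 3 / 10 * κ ^ 2 * ξ ^ 3 = ξ * (1 + (-(3 / 10 * u ^ 2))) := by rw [hu]; ring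
  have hu2 : u ^ 2 ≤ (13 / 60) ^ 2 := pow_le_pow_left₀ hu0 hu1 2
  have hv0 : 0 ≤ ξ * (1 + (-(3 / 10 * u ^ 2))) := mul_nonneg hξ0 (by norm_num at hu2; linarith)
  have hber : ∀ n : ℕ, 1 + (n : ℝ) * (-(3 / 10 * u ^ 2)) ≤ (1 + (-(3 / 10 * u ^ 2))) ^ n := fun n =>
    one_add_mul_le_pow (by norm_num at hu2; linarith) n
  have hpow : ∀ n : ℕ, ξ ^ n * (1 + (n : ℝ) * (-(3 / 10 * u ^ 2))) ≤
      (ξ * (1 + (-(3 / 10 * u ^ 2)))) ^ n := fun n => by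
    rw [mul_pow]
    exact mul_le_mul_of_nonneg_left (hber n) (pow_nonneg hξ0 n)
  have hexp := Real.sum_le_exp_of_nonneg hv0 6
  simp only [Finset.sum_range_succ, Finset.sum_range_zero, Nat.factorial] at hexp
  have p2 := hpow 2
  have p3 := hpow 3
  have p4 := hpow 4
  have p5 := hpow 5
  rw [hv]
  refine le_trans ?_ hexp
  set v := ξ * (1 + (-(3 / 10 * u ^ 2))) with hvdef
  have hX : ξ * (1 + κ * ξ / 2) ^ 2 = ξ * (1 + u / 2) ^ 2 := by rw [hu]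
  rw [hX]
  have hC0 : 0 ≤ (1 - κ) ^ 2 * (1 - 2 * κ) ^ 2 := by positivity
  have hk1 : 0 ≤ 1 - 7 * κ / 4 := by linarith
  have hk2 : 0 ≤ 4 - 7 * κ / 2 := by linarith
  have hk3 : 0 ≤ 2 - 7 * κ / 8 := by linarith
  have hk4 : 0 ≤ 2 - 7 * κ / 4 := by linarith
  have x2 : (ξ * (1 + u / 2) ^ 2) ^ 2 ≤ ξ ^ 2 * (1 + 2 * u + 81 / 50 * u ^ 2) := by
    have e : (ξ * (1 + u / 2) ^ 2) ^ 2 = ξ ^ 2 * (1 + u / 2) ^ 4 := by ring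
    rw [e]
    exact mul_le_mul_of_nonneg_left (w4 hu0 hu1) (by positivity)
  have x3 : (ξ * (1 + u / 2) ^ 2) ^ 3 ≤ ξ ^ 3 * (1 + 3 * u + 22 / 5 * u ^ 2) := by
    have e : (ξ * (1 + u / 2) ^ 2) ^ 3 = ξ ^ 3 * (1 + u / 2) ^ 6 := by ring
    rw [e]
    exact mul_le_mul_of_nonneg_left (w6 hu0 hu1) (by positivity)
  have x4 : (ξ * (1 + u / 2) ^ 2) ^ 4 ≤ ξ ^ 4 * (1 + 4 * u + 9 * u ^ 2) := by
    have e : (ξ * (1 + u / 2) ^ 2) ^ 4 = ξ ^ 4 * (1 + u / 2) ^ 8 := by ring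
    rw [e]
    exact mul_le_mul_of_nonneg_left (w8 hu0 hu1) (by positivity)
  have x5 : (ξ * (1 + u / 2) ^ 2) ^ 5 ≤ ξ ^ 5 * (1 + 5 * u + 31 / 2 * u ^ 2) := by
    have e : (ξ * (1 + u / 2) ^ 2) ^ 5 = ξ ^ 5 * (1 + u / 2) ^ 10 := by ring
    rw [e]
    exact mul_le_mul_of_nonneg_left (w10 hu0 hu1) (by positivity)
  have y2 := mul_le_mul (a2 hκ0 hκ1) x2 (by positivity) ((by positivity : (0:ℝ) ≤ _).trans (a2 hκ0 hκ1))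
  have y3 := mul_le_mul (a3 hκ0 hκ1) x3 (by positivity) ((by positivity : (0:ℝ) ≤ _).trans (a3 hκ0 hκ1))
  have y4 := mul_le_mul (cc hκ0 hκ1) x4 (by positivity) (hC0.trans (cc hκ0 hκ1))
  have y5 := mul_le_mul (cc hκ0 hκ1) x5 (by positivity) (hC0.trans (cc hκ0 hκ1))
  have hq := mul_nonneg (pow_nonneg hξ0 2) (qpos hκ0 hκ1 hξ0 hξ1)
  have hx1 : ξ * (1 + u / 2) ^ 2 = ξ + κ * ξ ^ 2 + κ ^ 2 * ξ ^ 3 / 4 := by rw [hu]; ring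
  have hx2 : v = ξ - 3 / 10 * κ ^ 2 * ξ ^ 3 := by rw [hvdef, hu]; ring
  have s1 : Nb κ (ξ * (1 + u / 2) ^ 2) ≤ 1 + (ξ + κ * ξ ^ 2 + κ ^ 2 * ξ ^ 3 / 4) +
      (49 / 100 - 12825 / 10000 * κ + 13571 / 10000 * κ ^ 2) *
        (ξ ^ 2 * (1 + 2 * u + 81 / 50 * u ^ 2)) +
      (117462 / 1000000 - 68687 / 100000 * κ + 1284 / 1000 * κ ^ 2) *
        (ξ ^ 3 * (1 + 3 * u + 22 / 5 * u ^ 2)) +
      201 / 20000 * ((1 - 5822 / 1000 * κ + 10167 / 1000 * κ ^ 2) *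
        (ξ ^ 4 * (1 + 4 * u + 9 * u ^ 2))) +
      1 / 2000 * ((1 - 5822 / 1000 * κ + 10167 / 1000 * κ ^ 2) *
        (ξ ^ 5 * (1 + 5 * u + 31 / 2 * u ^ 2))) := by
    rw [← hx1]
    unfold Nb
    generalize ξ * (1 + u / 2) ^ 2 = X at y2 y3 y4 y5 ⊢
    have z4 : 201 / 20000 * (1 - κ) ^ 2 * (1 - 2 * κ) ^ 2 * X ^ 4 =
        201 / 20000 * ((1 - κ) ^ 2 * (1 - 2 * κ) ^ 2 * X ^ 4) := by ring
    have z5 : 1 / 2000 * (1 - κ) ^ 2 * (1 - 2 * κ) ^ 2 * X ^ 5 =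
        1 / 2000 * ((1 - κ) ^ 2 * (1 - 2 * κ) ^ 2 * X ^ 5) := by ring
    rw [z4, z5]
    have t4 := mul_le_mul_of_nonneg_left y4 (by norm_num : (0:ℝ) ≤ 201 / 20000)
    have t5 := mul_le_mul_of_nonneg_left y5 (by norm_num : (0:ℝ) ≤ 1 / 2000)
    exact add_le_add (add_le_add (add_le_add (add_le_add le_rfl y2) y3) t4) t5
  have s2 : (1 + (ξ - 3 / 10 * κ ^ 2 * ξ ^ 3) + ξ ^ 2 * (1 + 2 * (-(3 / 10 * u ^ 2))) / 2 +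
      ξ ^ 3 * (1 + 3 * (-(3 / 10 * u ^ 2))) / 6 + ξ ^ 4 * (1 + 4 * (-(3 / 10 * u ^ 2))) / 24 +
      ξ ^ 5 * (1 + 5 * (-(3 / 10 * u ^ 2))) / 120) - (1 + (ξ + κ * ξ ^ 2 + κ ^ 2 * ξ ^ 3 / 4) +
      (49 / 100 - 12825 / 10000 * κ + 13571 / 10000 * κ ^ 2) *
        (ξ ^ 2 * (1 + 2 * u + 81 / 50 * u ^ 2)) +
      (117462 / 1000000 - 68687 / 100000 * κ + 1284 / 1000 * κ ^ 2) *
        (ξ ^ 3 * (1 + 3 * u + 22 / 5 * u ^ 2)) +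
      201 / 20000 * ((1 - 5822 / 1000 * κ + 10167 / 1000 * κ ^ 2) *
        (ξ ^ 4 * (1 + 4 * u + 9 * u ^ 2))) +
      1 / 2000 * ((1 - 5822 / 1000 * κ + 10167 / 1000 * κ ^ 2) *
        (ξ ^ 5 * (1 + 5 * u + 31 / 2 * u ^ 2)))) =
      ξ ^ 2 * (1 / 2 - κ - 11 / 20 * κ ^ 2 * ξ - 3 / 10 * κ ^ 2 * ξ ^ 2 +
      ξ / 6 * (1 - 9 / 10 * κ ^ 2 * ξ ^ 2) + ξ ^ 2 / 24 * (1 - 6 / 5 * κ ^ 2 * ξ ^ 2) +
      ξ ^ 3 / 120 * (1 - 3 / 2 * κ ^ 2 * ξ ^ 2) -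
      (49 / 100 - 12825 / 10000 * κ + 13571 / 10000 * κ ^ 2) *
        (1 + 2 * κ * ξ + 81 / 50 * κ ^ 2 * ξ ^ 2) -
      (117462 / 1000000 - 68687 / 100000 * κ + 1284 / 1000 * κ ^ 2) * ξ *
        (1 + 3 * κ * ξ + 22 / 5 * κ ^ 2 * ξ ^ 2) -
      201 / 20000 * (1 - 5822 / 1000 * κ + 10167 / 1000 * κ ^ 2) * ξ ^ 2 *
        (1 + 4 * κ * ξ + 9 * κ ^ 2 * ξ ^ 2) -
      1 / 2000 * (1 - 5822 / 1000 * κ + 10167 / 1000 * κ ^ 2) * ξ ^ 3 *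
        (1 + 5 * κ * ξ + 31 / 2 * κ ^ 2 * ξ ^ 2)) := by
    rw [hu]
    ring
  rw [← s2] at hq
  have s3 := sub_nonneg.1 hq
  refine s1.trans (s3.trans ?_)
  push_cast at p2 p3 p4 p5 ⊢
  rw [← hx2]
  norm_num at p2 p3 p4 p5 ⊢
  linarith

end Pool.Agent.N667.LK
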